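import Pool.Agent.H159R3.NV.Final

/-!
Entire functions on Fermat curves, with common zeros allowed.
-/

set_option autoImplicit false

namespace Pool.Agent.N111.KC

open Pool.Agent.H159R3.NV (powers_independent)

theorem nonprop_symm {X Y : ℂ → ℂ} (hY0 : ∃ z, Y z ≠ 0) (h : ∀ c : ℂ, ∃ z, X z ≠ c * Y z) :
    ∀ c : ℂ, ∃ z, Y z ≠ c * X z := by
  intro c
  by_contra h0
  push Not at h0
  have hc : c ≠ 0 := by
    rintro rfl
    obtain ⟨z, hz⟩ := hY0
    exact hz (by rw [h0 z, zero_mul])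
  obtain ⟨z, hz⟩ := h c⁻¹
  exact hz (by rw [h0 z, ← mul_assoc, inv_mul_cancel₀ hc, one_mul])

/-- entire functions with proportional powers are proportional -/
theorem prop_of_pow {P Q : ℂ → ℂ} (hP : Differentiable ℂ P) (hQ : Differentiable ℂ Q) {r : ℕ}
    (hr : 1 ≤ r) (hQ0 : ∃ z, Q z ≠ 0) {c : ℂ} (h : ∀ z, P z ^ r = c * Q z ^ r) :
    ∃ c' : ℂ, ∀ z, P z = c' * Q z := by
  by_contra hcon
  push Not at hcon
  have hP0 : ∃ z, P z ≠ 0 := by
    obtain ⟨z, hz⟩ := hcon 0
    exact ⟨z, by rwa [zero_mul] at hz⟩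
  have hsymm := nonprop_symm hQ0 hcon
  have key := powers_independent (s := 2) (N := r) (by norm_num; exact hr) ![P, Q]
    (fun i => by fin_cases i <;> simpa) Finset.univ (by simp)
    (fun i _ => by
      fin_cases i
      · exact hP0
      · exact hQ0)
    (fun i _ j _ hij d => by
      fin_cases i <;> fin_cases j
      · exact absurd rfl hij
      · obtain ⟨z, hz⟩ := hcon d
        exact ⟨z, sub_ne_zero.2 hz⟩
      · obtain ⟨z, hz⟩ := hsymm d
        exact ⟨z, sub_ne_zero.2 hz⟩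
      · exact absurd rfl hij)
    ![1, -c] (fun z => by
      rw [Fin.sum_univ_two]
      simp only [Matrix.cons_val_zero, Matrix.cons_val_one]
      rw [h z]
      ring) 0 (Finset.mem_univ _)
  exact one_ne_zero key

/-- there are no nonconstant meromorphic functions on the Fermat curves of degree at least four -/
theorem fermat {A B C : ℂ → ℂ} (hA : Differentiable ℂ A) (hB : Differentiable ℂ B)
    (hC : Differentiable ℂ C) {m : ℕ} (hm : 4 ≤ m) (hC0 : ∃ z, C z ≠ 0)
    (h : ∀ z, A z ^ m + B z ^ m = C z ^ m) : ∃ c : ℂ, ∀ z, A z = c * C z := by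
  by_contra hcon
  push Not at hcon
  have hA0 : ∃ z, A z ≠ 0 := by
    obtain ⟨z, hz⟩ := hcon 0
    exact ⟨z, by rwa [zero_mul] at hz⟩
  have hBC : ∀ c : ℂ, ∃ z, B z ≠ c * C z := by
    intro c
    by_contra h0
    push Not at h0
    obtain ⟨c', hc'⟩ := prop_of_pow hA hC (r := m) (by omega) hC0 (c := 1 - c ^ m) (fun z => by
      have h1 := h z
      rw [h0 z, mul_pow] at h1
      linear_combination h1)
    obtain ⟨z, hz⟩ := hcon c'
    exact hz (hc' z)
  have hB0 : ∃ z, B z ≠ 0 := by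
    obtain ⟨z, hz⟩ := hBC 0
    exact ⟨z, by rwa [zero_mul] at hz⟩
  have hAB : ∀ c : ℂ, ∃ z, A z ≠ c * B z := by
    intro c
    by_contra h0
    push Not at h0
    have h1 : ∀ z, (c ^ m + 1) * B z ^ m = C z ^ m := fun z => by
      have h1 := h z
      rw [h0 z, mul_pow] at h1
      linear_combination h1
    by_cases h2 : c ^ m + 1 = 0
    · obtain ⟨z, hz⟩ := hC0
      have h3 := h1 z
      rw [h2, zero_mul] at h3
      exact hz (pow_eq_zero_iff (by omega : m ≠ 0) |>.1 h3.symm)
    · obtain ⟨c', hc'⟩ := prop_of_pow hB hC (r := m) (by omega) hC0 (c := (c ^ m + 1)⁻¹)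
        (fun z => by rw [← h1 z, ← mul_assoc, inv_mul_cancel₀ h2, one_mul])
      obtain ⟨z, hz⟩ := hBC c'
      exact hz (hc' z)
  have hCA := nonprop_symm hC0 hcon
  have hCB := nonprop_symm hC0 hBC
  have hBA := nonprop_symm hB0 hAB
  have key := powers_independent (s := 3) (N := m) (by norm_num; exact hm) ![A, B, C]
    (fun i => by fin_cases i <;> simpa) Finset.univ (by simp)
    (fun i _ => by
      fin_cases i
      · exact hA0
      · exact hB0
      · exact hC0)
    (fun i _ j _ hij d => by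
      fin_cases i <;> fin_cases j
      · exact absurd rfl hij
      · obtain ⟨z, hz⟩ := hAB d
        exact ⟨z, sub_ne_zero.2 hz⟩
      · obtain ⟨z, hz⟩ := hcon d
        exact ⟨z, sub_ne_zero.2 hz⟩
      · obtain ⟨z, hz⟩ := hBA d
        exact ⟨z, sub_ne_zero.2 hz⟩
      · exact absurd rfl hij
      · obtain ⟨z, hz⟩ := hBC d
        exact ⟨z, sub_ne_zero.2 hz⟩
      · obtain ⟨z, hz⟩ := hCA d
        exact ⟨z, sub_ne_zero.2 hz⟩
      · obtain ⟨z, hz⟩ := hCB d
        exact ⟨z, sub_ne_zero.2 hz⟩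
      · exact absurd rfl hij)
    ![1, 1, -1] (fun z => by
      rw [Fin.sum_univ_three]
      simp only [Matrix.cons_val_zero, Matrix.cons_val_one, Matrix.cons_val]
      rw [← h z]
      ring) 0 (Finset.mem_univ _)
  exact one_ne_zero key

/-- a product of entire functions which is zero has a zero factor -/
theorem mul_zero_entire {P Q : ℂ → ℂ} (hP : Differentiable ℂ P) (hP0 : ∃ z, P z ≠ 0)
    (hQ : Differentiable ℂ Q) (h : ∀ z, P z * Q z = 0) (z : ℂ) : Q z = 0 := by
  obtain ⟨x, hx⟩ := hP0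
  by_contra hz
  have h1 := Pool.Agent.H159R3.NV.ev_ne hP hx 0
  have h2 := Pool.Agent.H159R3.NV.ev_ne hQ hz 0
  have h3 : ∀ᶠ z in nhdsWithin (0 : ℂ) {0}ᶜ, False := by
    filter_upwards [h1, h2] with w hw1 hw2
    rcases mul_eq_zero.1 (h w) with h4 | h4
    · exact hw1 h4
    · exact hw2 h4
  exact Filter.eventually_const.mp h3

end Pool.Agent.N111.KC
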