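import Mathlib

/-!
Projective varieties over number fields, their rational points and entire curves, and Kummer
coverings of projective spaces.
-/

set_option autoImplicit false

namespace Pool.Agent.N111.KC

open MvPolynomial
open scoped LinearAlgebra.Projectivization

section defs

variable {K : Type} [Field K] {τ ι κ : Type}

/-- `V(L)` for the closed subset `V` of the projective space with coordinates indexed by `τ` that is
given by the forms `F i` over `K`. -/
def points (F : ι → MvPolynomial τ K) (L : Type) [Field L] [Algebra K L] : Set (ℙ L (τ → L)) :=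
  {P | ∀ i, aeval P.rep (F i) = 0}

/-- `V_σ` is hyperbolic (in Brody's form, which is equivalent to Kobayashi's for closed subsets of
projective spaces): every holomorphic map from the complex plane to `V_σ`, given by entire functions
without common zeros, is constant. -/
def Hyperbolic (σ : K →+* ℂ) (F : ι → MvPolynomial τ K) : Prop :=
  ∀ f : ℂ → τ → ℂ, (∀ j, Differentiable ℂ fun z => f z j) → (∀ z, f z ≠ 0) →
    (∀ z i, eval₂ σ (f z) (F i) = 0) → ∀ z w, ∃ c : ℂ, f z = c • f w

/-- Lang's question for the variety `V` over the number field `K` and the embedding `σ`: `V_σ` is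
hyperbolic if and only if `V(L)` is finite for every finite extension `L` of `K`. -/
def Lang (σ : K →+* ℂ) (F : ι → MvPolynomial τ K) : Prop :=
  Hyperbolic σ F ↔ ∀ (L : Type) [Field L] [NumberField L] [Algebra K L], (points F L).Finite

/-- The equations `y_k ^ (2 m) + T_k(x) ^ m = x_j ^ (2 m)`, `j = j(k)`, `k ∈ κ`, in the homogeneous
coordinates `x_0, …, x_N` and `y_k`. -/
noncomputable def kummer {N : ℕ} (m : ℕ) (T : κ → MvPolynomial (Fin (N + 1)) K)
    (j : κ → Fin (N + 1)) : κ → MvPolynomial (Fin (N + 1) ⊕ κ) K :=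
  fun k => X (Sum.inr k) ^ (2 * m) + rename Sum.inl (T k) ^ m - X (Sum.inl (j k)) ^ (2 * m)

/-- `Monomials n N d μ`: `μ` enumerates the exponent vectors of the monomials of degree `d` in `n + 1`
variables. -/
structure Monomials (n N d : ℕ) (μ : Fin (N + 1) → Fin (n + 1) → ℕ) : Prop where
  deg : ∀ a, ∑ j, μ a j = d
  inj : Function.Injective μ
  surj : ∀ α : Fin (n + 1) → ℕ, ∑ j, α j = d → ∃ a, μ a = α

/-- The Veronese map. -/
def veronese {n N : ℕ} {R : Type} [CommRing R] (μ : Fin (N + 1) → Fin (n + 1) → ℕ)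
    (x : Fin (n + 1) → R) : Fin (N + 1) → R := fun a => ∏ j, x j ^ μ a j

end defs

variable {K : Type} [Field K] {τ ι κ : Type}

theorem eval₂_scale {R : Type} [CommRing R] (σ : K →+* R) {e : ℕ} {F : MvPolynomial τ K}
    (hF : F.IsHomogeneous e) (c : R) (x : τ → R) :
    eval₂ σ (c • x) F = c ^ e * eval₂ σ x F := by
  rw [eval₂_eq, eval₂_eq, Finset.mul_sum]
  refine Finset.sum_congr rfl fun α hα => ?_
  have h1 : ∑ j ∈ α.support, α j = e := by
    have h2 := hF (mem_support_iff.1 hα)
    rw [Finsupp.weight_apply] at h2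
    simpa [Finsupp.sum] using h2
  have h3 : ∏ y ∈ α.support, (c • x) y ^ α y = c ^ e * ∏ y ∈ α.support, x y ^ α y := by
    rw [← h1, ← Finset.prod_pow_eq_pow_sum, ← Finset.prod_mul_distrib]
    refine Finset.prod_congr rfl fun y _ => ?_
    rw [Pi.smul_apply, smul_eq_mul, mul_pow]
  rw [h3]
  ring

theorem aeval_scale {R : Type} [CommRing R] [Algebra K R] {e : ℕ} {F : MvPolynomial τ K}
    (hF : F.IsHomogeneous e) (c : R) (x : τ → R) :
    aeval (c • x) F = c ^ e * aeval x F := by
  rw [aeval_def, aeval_def]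
  exact eval₂_scale _ hF c x

theorem mem_points {F : ι → MvPolynomial τ K} (hF : ∀ i, ∃ e, (F i).IsHomogeneous e) {L : Type}
    [Field L] [Algebra K L] {x : τ → L} (hx : x ≠ 0) :
    Projectivization.mk L x hx ∈ points F L ↔ ∀ i, aeval x (F i) = 0 := by
  obtain ⟨a, ha⟩ := Projectivization.exists_smul_eq_mk_rep L x hx
  have h1 : (Projectivization.mk L x hx).rep = (a : L) • x := ha.symm
  constructor
  · intro h i
    obtain ⟨e, he⟩ := hF i
    have h2 := h i
    rw [h1, aeval_scale he] at h2
    exact (mul_eq_zero.1 h2).resolve_left (pow_ne_zero _ a.ne_zero)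
  · intro h i
    obtain ⟨e, he⟩ := hF i
    rw [h1, aeval_scale he, h i, mul_zero]

variable {N m : ℕ}

theorem eval₂_kummer {R : Type} [CommRing R] (σ : K →+* R)
    (T : κ → MvPolynomial (Fin (N + 1)) K) (j : κ → Fin (N + 1)) (f : Fin (N + 1) ⊕ κ → R) (k : κ) :
    eval₂ σ f (kummer m T j k) =
      f (Sum.inr k) ^ (2 * m) + eval₂ σ (f ∘ Sum.inl) (T k) ^ m - f (Sum.inl (j k)) ^ (2 * m) := by
  unfold kummer
  rw [eval₂_sub, eval₂_add, eval₂_pow, eval₂_pow, eval₂_pow, eval₂_X, eval₂_X, eval₂_rename]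

theorem aeval_kummer {R : Type} [CommRing R] [Algebra K R]
    (T : κ → MvPolynomial (Fin (N + 1)) K) (j : κ → Fin (N + 1)) (f : Fin (N + 1) ⊕ κ → R) (k : κ) :
    aeval f (kummer m T j k) =
      f (Sum.inr k) ^ (2 * m) + aeval (f ∘ Sum.inl) (T k) ^ m - f (Sum.inl (j k)) ^ (2 * m) := by
  rw [aeval_def, aeval_def]
  exact eval₂_kummer _ T j f k

theorem kummer_hom {T : κ → MvPolynomial (Fin (N + 1)) K} (hT : ∀ k, (T k).IsHomogeneous 2)
    (j : κ → Fin (N + 1)) (k : κ) : (kummer m T j k).IsHomogeneous (2 * m) := by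
  unfold kummer
  have h1 : ∀ a : Fin (N + 1) ⊕ κ,
      (X a ^ (2 * m) : MvPolynomial (Fin (N + 1) ⊕ κ) K).IsHomogeneous (2 * m) := fun a => by
    have h := (isHomogeneous_X K a).pow (2 * m)
    rwa [one_mul] at h
  have h2 : (rename Sum.inl (T k) ^ m : MvPolynomial (Fin (N + 1) ⊕ κ) K).IsHomogeneous (2 * m) :=
    ((hT k).rename_isHomogeneous).pow m
  exact ((h1 _).add h2).sub (h1 _)

end Pool.Agent.N111.KC
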