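import Pool.Agent.N254.SQ.Geo
import Pool.Agent.N111.KC.Def

/-!
Rational points of the Kummer coverings of projective spaces attached to a projective variety.
-/

set_option autoImplicit false

namespace Pool.Agent.N111.KC

open MvPolynomial
open scoped LinearAlgebra.Projectivization
open Pool.Agent.N254.SQ (Mon ver ver_prop ver_ne_zero)

theorem fin_roots {L : Type} [Field L] {r : ℕ} (hr : 1 ≤ r) (a : L) : {t : L | t ^ r = a}.Finite := by
  classical
  have hne : (Polynomial.X ^ r - Polynomial.C a : Polynomial L) ≠ 0 :=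
    Polynomial.X_pow_sub_C_ne_zero (by omega) a
  refine Set.Finite.subset (Finset.finite_toSet
    (Polynomial.X ^ r - Polynomial.C a : Polynomial L).roots.toFinset) fun t ht => ?_
  rw [Finset.mem_coe, Multiset.mem_toFinset, Polynomial.mem_roots hne]
  simp only [Set.mem_setOf_eq] at ht
  simp [Polynomial.IsRoot, ht]

theorem fin_roots_set {L : Type} [Field L] {r : ℕ} (hr : 1 ≤ r) {A : Set L} (hA : A.Finite) :
    {t : L | t ^ r ∈ A}.Finite := by
  have h : {t : L | t ^ r ∈ A} = ⋃ a ∈ A, {t : L | t ^ r = a} := by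
    ext t
    simp
  rw [h]
  exact hA.biUnion fun a _ => fin_roots hr a

/-- finitely many points have representatives with coordinates in a finite set -/
theorem fin_proj {L : Type} [Field L] {τ : Type} [Finite τ] {R : Set L} (hR : R.Finite) :
    {P : ℙ L (τ → L) | ∃ (g : τ → L) (hg : g ≠ 0), P = Projectivization.mk L g hg ∧
      ∀ j, g j ∈ R}.Finite := by
  have hS : {g : τ → L | ∀ j, g j ∈ R}.Finite := Set.Finite.pi' fun _ => hR
  refine (hS.biUnion (t := fun g => {P : ℙ L (τ → L) | ∃ hg : g ≠ 0, P = Projectivization.mk L g hg})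
    fun g _ => Set.Subsingleton.finite ?_).subset ?_
  · rintro P ⟨hg, rfl⟩ Q ⟨hg', rfl⟩
    rfl
  · rintro P ⟨g, hg, hP, hgR⟩
    exact Set.mem_biUnion (show g ∈ {g : τ → L | ∀ j, g j ∈ R} from hgR) ⟨hg, hP⟩

/-- The Fermat curve over `L`. -/
def fermatPts (m : ℕ) (L : Type) [Field L] : Set (L × L) := {p | p.1 ^ m + p.2 ^ (2 * m) = 1}

section

variable {K : Type} [Field K] {ι ι' : Type} {n N d m : ℕ} {μ : Fin (N + 1) → Fin (n + 1) → ℕ}

/-- the data attached to a projective variety `F = 0`: quadratic forms `q` which define its image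
under the Veronese map -/
structure Data (F : ι → MvPolynomial (Fin (n + 1)) K) (d : ℕ) (μ : Fin (N + 1) → Fin (n + 1) → ℕ)
    (q : ι' → MvPolynomial (Fin (N + 1)) K) : Prop where
  mon : Mon n N d μ
  pos : 1 ≤ d
  homF : ∀ i, ∃ e, (F i).IsHomogeneous e
  hom : ∀ i, (q i).IsHomogeneous 2
  zero : ∀ (Ω : Type) [Field Ω] [Algebra K Ω] (x : Fin (n + 1) → Ω), (∀ i, aeval x (F i) = 0) →
    ∀ i, aeval (ver μ x) (q i) = 0
  point : ∀ (Ω : Type) [Field Ω] [Algebra K Ω] (y : Fin (N + 1) → Ω), y ≠ 0 →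
    (∀ i, aeval y (q i) = 0) → ∃ (x : Fin (n + 1) → Ω) (a : Fin (n + 1)) (b : Fin (N + 1)),
      x a = 1 ∧ y b ≠ 0 ∧ (∀ c, y c = y b * ver μ x c) ∧ ∀ i, aeval x (F i) = 0

/-- the quadratic forms of the covering -/
def TT (q : ι' → MvPolynomial (Fin (N + 1)) K) :
    ι' × Fin (N + 1) → MvPolynomial (Fin (N + 1)) K := fun k => q k.1

variable {F : ι → MvPolynomial (Fin (n + 1)) K} {q : ι' → MvPolynomial (Fin (N + 1)) K}

theorem aeval_cov {R : Type} [CommRing R] [Algebra K R] (f : Fin (N + 1) ⊕ (ι' × Fin (N + 1)) → R)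
    (k : ι' × Fin (N + 1)) :
    aeval f (kummer m (TT q) Prod.snd k) =
      f (Sum.inr k) ^ (2 * m) + aeval (f ∘ Sum.inl) (q k.1) ^ m - f (Sum.inl k.2) ^ (2 * m) := by
  rw [aeval_kummer]
  rfl

theorem cov_hom (hq : ∀ i, (q i).IsHomogeneous 2) (k : ι' × Fin (N + 1)) :
    (kummer m (TT q) Prod.snd k).IsHomogeneous (2 * m) :=
  kummer_hom (m := m) (T := TT q) (fun k => hq k.1) Prod.snd k

theorem inl_ne_zero (hm : 1 ≤ m) (hq : ∀ i, (q i).IsHomogeneous 2) {L : Type} [Field L] [Algebra K L]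
    {f : Fin (N + 1) ⊕ (ι' × Fin (N + 1)) → L} (hf : f ≠ 0)
    (h : ∀ k, aeval f (kummer m (TT q) Prod.snd k) = 0) : f ∘ Sum.inl ≠ 0 := by
  intro h0
  apply hf
  funext j
  rcases j with j | k
  · exact congrFun h0 j
  · have h1 := h k
    rw [aeval_cov, h0] at h1
    have h2 : (f (Sum.inl k.2)) = 0 := congrFun h0 k.2
    have h3 : aeval (0 : Fin (N + 1) → L) (q k.1) = 0 := by
      have h4 := aeval_scale (hq k.1) (0 : L) (0 : Fin (N + 1) → L)
      rw [zero_smul, zero_pow (by norm_num), zero_mul] at h4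
      exact h4
    rw [h2, h3, zero_pow (by omega : m ≠ 0), zero_pow (by omega : 2 * m ≠ 0), add_zero,
      sub_zero] at h1
    exact (pow_eq_zero_iff (by omega : 2 * m ≠ 0)).1 h1

/-- points off the variety -/
theorem fin_off [Finite ι'] (hm : 1 ≤ m) (hq : ∀ i, (q i).IsHomogeneous 2) {L : Type} [Field L]
    [Algebra K L] (hE : (fermatPts m L).Finite) :
    {P : ℙ L (Fin (N + 1) ⊕ (ι' × Fin (N + 1)) → L) | P ∈ points (kummer m (TT q) Prod.snd) L ∧
      ∃ i, aeval (P.rep ∘ Sum.inl) (q i) ≠ 0}.Finite := by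
  classical
  have hU : (Prod.fst '' fermatPts m L).Finite := hE.image _
  set U : Set L := Prod.fst '' fermatPts m L with hUdef
  have hR1 : {t : L | t = 0 ∨ t ^ 2 ∈ (fun p : L × L => p.1 / p.2) '' (U ×ˢ U)}.Finite := by
    refine ((Set.finite_singleton (0 : L)).union
      (fin_roots_set (r := 2) (by norm_num)
        ((hU.prod hU).image (fun p : L × L => p.1 / p.2)))).subset fun t ht => ?_
    rcases ht with rfl | ht
    · exact Or.inl rfl
    · exact Or.inr ht
  set R1 : Set L := {t : L | t = 0 ∨ t ^ 2 ∈ (fun p : L × L => p.1 / p.2) '' (U ×ˢ U)} with hR1def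
  have hR2 : {t : L | t ^ (2 * m) ∈ (fun p : L × L => p.1 ^ (2 * m) - p.2 ^ m) '' (R1 ×ˢ U)}.Finite :=
    fin_roots_set (by omega) ((hR1.prod hU).image (fun p : L × L => p.1 ^ (2 * m) - p.2 ^ m))
  refine (fin_proj (hR1.union hR2)).subset ?_
  rintro P ⟨hP, i1, hi1⟩
  have hx := inl_ne_zero hm hq P.rep_nonzero hP
  obtain ⟨j0, hj0⟩ : ∃ j, P.rep (Sum.inl j) ≠ 0 := by
    by_contra h0
    push Not at h0
    exact hx (funext h0)
  have hc : (P.rep (Sum.inl j0))⁻¹ ≠ 0 := inv_ne_zero hj0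
  set g : Fin (N + 1) ⊕ (ι' × Fin (N + 1)) → L := (P.rep (Sum.inl j0))⁻¹ • P.rep with hg
  have hg0 : g ≠ 0 := smul_ne_zero hc P.rep_nonzero
  have hgP : P = Projectivization.mk L g hg0 := by
    rw [← P.mk_rep, Projectivization.mk_eq_mk_iff]
    refine ⟨Units.mk0 (P.rep (Sum.inl j0)) hj0, ?_⟩
    change P.rep (Sum.inl j0) • (P.rep (Sum.inl j0))⁻¹ • P.rep = P.rep
    rw [smul_smul, mul_inv_cancel₀ hj0, one_smul]
  have hgj0 : g (Sum.inl j0) = 1 := by
    rw [hg, Pi.smul_apply, smul_eq_mul, inv_mul_cancel₀ hj0]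
  have heq : ∀ k : ι' × Fin (N + 1), g (Sum.inr k) ^ (2 * m) + aeval (g ∘ Sum.inl) (q k.1) ^ m =
      g (Sum.inl k.2) ^ (2 * m) := by
    intro k
    have h1 := aeval_scale (cov_hom (m := m) hq k)
      (P.rep (Sum.inl j0))⁻¹ P.rep
    rw [hP k, mul_zero, ← hg, aeval_cov] at h1
    exact sub_eq_zero.1 h1
  have hinl : g ∘ Sum.inl = (P.rep (Sum.inl j0))⁻¹ • (P.rep ∘ Sum.inl) := rfl
  have hqU : ∀ i, aeval (g ∘ Sum.inl) (q i) ∈ U := by
    intro i
    have h1 := heq (i, j0)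
    simp only [hgj0, one_pow] at h1
    refine ⟨(aeval (g ∘ Sum.inl) (q i), g (Sum.inr (i, j0))), ?_, rfl⟩
    change _ + _ = (1 : L)
    rw [add_comm]
    exact h1
  have hc1 : aeval (g ∘ Sum.inl) (q i1) ≠ 0 := by
    rw [hinl, aeval_scale (hq i1)]
    exact mul_ne_zero (pow_ne_zero _ hc) hi1
  have hxR : ∀ j, g (Sum.inl j) ∈ R1 := by
    intro j
    by_cases hj : g (Sum.inl j) = 0
    · exact Or.inl hj
    · right
      have h1 := heq (i1, j)
      have h2 : aeval (g ∘ Sum.inl) (q i1) / g (Sum.inl j) ^ 2 ∈ U := by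
        refine ⟨(aeval (g ∘ Sum.inl) (q i1) / g (Sum.inl j) ^ 2,
          g (Sum.inr (i1, j)) / g (Sum.inl j)), ?_, rfl⟩
        change (aeval (g ∘ Sum.inl) (q i1) / g (Sum.inl j) ^ 2) ^ m +
          (g (Sum.inr (i1, j)) / g (Sum.inl j)) ^ (2 * m) = 1
        rw [div_pow, div_pow, ← pow_mul, ← add_div, div_eq_one_iff_eq (pow_ne_zero _ hj), add_comm]
        exact h1
      refine ⟨(aeval (g ∘ Sum.inl) (q i1), aeval (g ∘ Sum.inl) (q i1) / g (Sum.inl j) ^ 2),
        Set.mk_mem_prod (hqU i1) h2, ?_⟩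
      change aeval (g ∘ Sum.inl) (q i1) / (aeval (g ∘ Sum.inl) (q i1) / g (Sum.inl j) ^ 2) = _
      field_simp
  refine ⟨g, hg0, hgP, fun j => ?_⟩
  rcases j with j | k
  · exact Or.inl (hxR j)
  · right
    refine ⟨(g (Sum.inl k.2), aeval (g ∘ Sum.inl) (q k.1)), Set.mk_mem_prod (hxR _) (hqU _), ?_⟩
    change g (Sum.inl k.2) ^ (2 * m) - aeval (g ∘ Sum.inl) (q k.1) ^ m = _
    rw [← heq k]
    ring

/-- if `V(L)` is finite then `X(L)` is finite -/
theorem fin_up [Finite ι'] (hm : 1 ≤ m) (D : Data F d μ q) {L : Type} [Field L]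
    [Algebra K L] (hE : (fermatPts m L).Finite) (hF : (points F L).Finite) :
    (points (kummer m (TT q) Prod.snd) L).Finite := by
  classical
  -- normalised representatives of the points of `V(L)`
  have hB : (⋃ P ∈ points F L, ⋃ a : Fin (n + 1), {(P.rep a)⁻¹ • P.rep}).Finite :=
    hF.biUnion fun P _ => Set.finite_iUnion fun a => Set.finite_singleton _
  set B : Set (Fin (n + 1) → L) := ⋃ P ∈ points F L, ⋃ a : Fin (n + 1), {(P.rep a)⁻¹ • P.rep}
    with hBdef
  have hA : {t : L | ∃ x ∈ B, ∃ j, t = ver μ x j ^ (2 * m)}.Finite := by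
    have h : {t : L | ∃ x ∈ B, ∃ j, t = ver μ x j ^ (2 * m)} =
        ⋃ x ∈ B, ⋃ j, {ver μ x j ^ (2 * m)} := by
      ext t
      simp [eq_comm]
    rw [h]
    exact hB.biUnion fun x _ => Set.finite_iUnion fun j => Set.finite_singleton _
  have hR := fin_roots_set (r := 2 * m) (by omega) hA
  refine ((fin_off hm D.hom hE).union (fin_proj (τ := Fin (N + 1) ⊕ (ι' × Fin (N + 1))) hR)).subset
    fun P hP => ?_
  by_cases hoff : ∃ i, aeval (P.rep ∘ Sum.inl) (q i) ≠ 0
  · exact Or.inl ⟨hP, hoff⟩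
  · right
    push Not at hoff
    have hx := inl_ne_zero hm D.hom P.rep_nonzero hP
    obtain ⟨x, a, b, hxa, hyb, hyc, hxF⟩ := D.point L (P.rep ∘ Sum.inl) hx hoff
    have hb0 : P.rep (Sum.inl b) ≠ 0 := hyb
    have hc : (P.rep (Sum.inl b))⁻¹ ≠ 0 := inv_ne_zero hb0
    set g : Fin (N + 1) ⊕ (ι' × Fin (N + 1)) → L := (P.rep (Sum.inl b))⁻¹ • P.rep with hg
    have hg0 : g ≠ 0 := smul_ne_zero hc P.rep_nonzero
    have hgP : P = Projectivization.mk L g hg0 := by
      rw [← P.mk_rep, Projectivization.mk_eq_mk_iff]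
      refine ⟨Units.mk0 (P.rep (Sum.inl b)) hb0, ?_⟩
      change P.rep (Sum.inl b) • (P.rep (Sum.inl b))⁻¹ • P.rep = P.rep
      rw [smul_smul, mul_inv_cancel₀ hb0, one_smul]
    have hginl : ∀ c, g (Sum.inl c) = ver μ x c := by
      intro c
      have h1 : P.rep (Sum.inl c) = P.rep (Sum.inl b) * ver μ x c := hyc c
      rw [hg, Pi.smul_apply, smul_eq_mul, h1, ← mul_assoc, inv_mul_cancel₀ hb0, one_mul]
    have hxB : x ∈ B := by
      have hx0 : x ≠ 0 := by
        intro h0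
        rw [h0] at hxa
        exact zero_ne_one hxa
      have hmem : Projectivization.mk L x hx0 ∈ points F L := (mem_points D.homF hx0).2 hxF
      obtain ⟨c, hc⟩ := Projectivization.exists_smul_eq_mk_rep L x hx0
      refine Set.mem_biUnion hmem (Set.mem_iUnion.2 ⟨a, ?_⟩)
      rw [Set.mem_singleton_iff, ← hc]
      have h1 : ((c • x) a : L) = c := by
        change (c : L) * x a = c
        rw [hxa, mul_one]
      rw [h1]
      change x = (c : L)⁻¹ • (c : L) • x
      rw [smul_smul, inv_mul_cancel₀ c.ne_zero, one_smul]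
    have heq : ∀ k : ι' × Fin (N + 1), g (Sum.inr k) ^ (2 * m) + aeval (g ∘ Sum.inl) (q k.1) ^ m =
        g (Sum.inl k.2) ^ (2 * m) := by
      intro k
      have h1 := aeval_scale (cov_hom (m := m) D.hom k)
        (P.rep (Sum.inl b))⁻¹ P.rep
      rw [hP k, mul_zero, ← hg, aeval_cov] at h1
      exact sub_eq_zero.1 h1
    refine ⟨g, hg0, hgP, fun j => ?_⟩
    rcases j with j | k
    · refine ⟨x, hxB, j, ?_⟩
      rw [hginl]
    · refine ⟨x, hxB, k.2, ?_⟩
      have h1 := heq k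
      have h2 : g ∘ Sum.inl = ver μ x := funext hginl
      rw [h2, D.zero L x hxF, zero_pow (by omega : m ≠ 0), add_zero, hginl] at h1
      exact h1

/-- the embedding of `V` in `X` -/
def emb (μ : Fin (N + 1) → Fin (n + 1) → ℕ) (ι' : Type) {R : Type} [CommRing R]
    (x : Fin (n + 1) → R) : Fin (N + 1) ⊕ (ι' × Fin (N + 1)) → R :=
  Sum.elim (ver μ x) fun k => ver μ x k.2

theorem emb_ne (D : Data F d μ q) {L : Type} [Field L] {x : Fin (n + 1) → L} (hx : x ≠ 0) :
    emb μ ι' x ≠ 0 := by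
  intro h0
  apply ver_ne_zero D.mon D.pos hx
  funext j
  exact congrFun h0 (Sum.inl j)

theorem emb_zero (hm : 1 ≤ m) (D : Data F d μ q) {L : Type} [Field L] [Algebra K L]
    {x : Fin (n + 1) → L} (hx : ∀ i, aeval x (F i) = 0) (k : ι' × Fin (N + 1)) :
    aeval (emb μ ι' x) (kummer m (TT q) Prod.snd k) = 0 := by
  rw [aeval_cov]
  have h1 : emb μ ι' x ∘ Sum.inl = ver μ x := rfl
  have h2 : emb μ ι' x (Sum.inr k) = ver μ x k.2 := rfl
  have h3 : emb μ ι' x (Sum.inl k.2) = ver μ x k.2 := rfl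
  rw [h1, h2, h3, D.zero L x hx, zero_pow (by omega : m ≠ 0)]
  ring

theorem emb_prop (D : Data F d μ q) {L : Type} [Field L] {x w : Fin (n + 1) → L} (hx : x ≠ 0)
    {c : L} (h : emb μ ι' x = c • emb μ ι' w) : ∃ c' : L, x = c' • w := by
  apply ver_prop D.mon D.pos hx (c := c)
  funext j
  exact congrFun h (Sum.inl j)

theorem emb_inj (D : Data F d μ q) (L : Type) [Field L] :
    Function.Injective fun P : ℙ L (Fin (n + 1) → L) =>
      Projectivization.mk L (emb μ ι' P.rep) (emb_ne D P.rep_nonzero) := by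
  intro P P' hP
  obtain ⟨a, ha⟩ := (Projectivization.mk_eq_mk_iff L _ _ _ _).1 hP
  obtain ⟨c, hc⟩ := emb_prop D (c := (a : L)) P.rep_nonzero ha.symm
  have hc0 : c ≠ 0 := by
    intro h0
    rw [h0, zero_smul] at hc
    exact P.rep_nonzero hc
  rw [← P.mk_rep, ← P'.mk_rep, Projectivization.mk_eq_mk_iff]
  exact ⟨Units.mk0 c hc0, hc.symm⟩

theorem emb_mem (hm : 1 ≤ m) (D : Data F d μ q) {L : Type} [Field L] [Algebra K L]
    {P : ℙ L (Fin (n + 1) → L)} (hP : P ∈ points F L) :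
    Projectivization.mk L (emb μ ι' P.rep) (emb_ne D P.rep_nonzero) ∈
      points (kummer m (TT q) Prod.snd) L := by
  have h := mem_points (F := kummer m (TT q) Prod.snd) (fun k => ⟨2 * m, cov_hom (m := m) D.hom k⟩)
    (emb_ne D P.rep_nonzero)
  exact h.2 fun k => emb_zero hm D hP k

/-- if `X(L)` is finite then `V(L)` is finite -/
theorem fin_down (hm : 1 ≤ m) (D : Data F d μ q) {L : Type} [Field L]
    [Algebra K L] (hX : (points (kummer m (TT q) Prod.snd) L).Finite) : (points F L).Finite := by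
  have h1 : ((fun P : ℙ L (Fin (n + 1) → L) =>
      Projectivization.mk L (emb μ ι' P.rep) (emb_ne D P.rep_nonzero)) '' points F L).Finite := by
    refine hX.subset ?_
    rintro _ ⟨P, hP, rfl⟩
    exact emb_mem hm D hP
  exact h1.of_finite_image (emb_inj D L).injOn

end

end Pool.Agent.N111.KC
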