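import Pool.Agent.N254.SQ.Lift
import Pool.Agent.N111.KC.Fer
import Pool.Agent.N111.KC.Pts

/-!
Entire curves in the Kummer coverings of projective spaces attached to a projective variety.
-/

set_option autoImplicit false

namespace Pool.Agent.N111.KC

open MvPolynomial
open Pool.Agent.N254.SQ (Mon ver ver_prop ver_ne_zero ver_smul ver_diff t_lift)

theorem diff_eval₂ {K : Type} [Field K] {τ : Type} (σ : K →+* ℂ) {f : ℂ → τ → ℂ}
    (hf : ∀ j, Differentiable ℂ fun z => f z j) (p : MvPolynomial τ K) :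
    Differentiable ℂ fun z => eval₂ σ (f z) p := by
  induction p using MvPolynomial.induction_on with
  | C a =>
    simp only [eval₂_C]
    exact differentiable_const _
  | add p q hp hq =>
    simp only [eval₂_add]
    exact hp.add hq
  | mul_X p j hp =>
    simp only [eval₂_mul, eval₂_X]
    exact hp.mul (hf j)

section

variable {K : Type} [Field K] {ι ι' : Type} {n N d m : ℕ} {μ : Fin (N + 1) → Fin (n + 1) → ℕ}
  {F : ι → MvPolynomial (Fin (n + 1)) K} {q : ι' → MvPolynomial (Fin (N + 1)) K}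

theorem eval₂_cov {R : Type} [CommRing R] (σ : K →+* R) (f : Fin (N + 1) ⊕ (ι' × Fin (N + 1)) → R)
    (k : ι' × Fin (N + 1)) :
    eval₂ σ f (kummer m (TT q) Prod.snd k) =
      f (Sum.inr k) ^ (2 * m) + eval₂ σ (f ∘ Sum.inl) (q k.1) ^ m - f (Sum.inl k.2) ^ (2 * m) := by
  rw [eval₂_kummer]
  rfl

theorem inl_ne_zero₂ (hm : 1 ≤ m) (hq : ∀ i, (q i).IsHomogeneous 2) (σ : K →+* ℂ)
    {f : Fin (N + 1) ⊕ (ι' × Fin (N + 1)) → ℂ} (hf : f ≠ 0)
    (h : ∀ k, eval₂ σ f (kummer m (TT q) Prod.snd k) = 0) : f ∘ Sum.inl ≠ 0 := by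
  letI := σ.toAlgebra
  exact inl_ne_zero hm hq hf (L := ℂ) fun k => h k

/-- a curve on which some of the quadratic forms is not zero is constant -/
theorem const_of_ne (hm : 4 ≤ m) (hq : ∀ i, (q i).IsHomogeneous 2) (σ : K →+* ℂ)
    {f : ℂ → Fin (N + 1) ⊕ (ι' × Fin (N + 1)) → ℂ} (hf : ∀ j, Differentiable ℂ fun z => f z j)
    (hf0 : ∀ z, f z ≠ 0) (h : ∀ z k, eval₂ σ (f z) (kummer m (TT q) Prod.snd k) = 0)
    {i1 : ι'} {z1 : ℂ} (h1 : eval₂ σ (f z1 ∘ Sum.inl) (q i1) ≠ 0) (z w : ℂ) :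
    ∃ c : ℂ, f z = c • f w := by
  have hx : ∀ z, f z ∘ Sum.inl ≠ 0 := fun z => inl_ne_zero₂ (by omega) hq σ (hf0 z) (h z)
  have hQd : ∀ i, Differentiable ℂ fun z => eval₂ σ (f z ∘ Sum.inl) (q i) := fun i =>
    diff_eval₂ σ (fun j => hf (Sum.inl j)) (q i)
  have heq : ∀ z (k : ι' × Fin (N + 1)), eval₂ σ (f z ∘ Sum.inl) (q k.1) ^ m +
      (f z (Sum.inr k) ^ 2) ^ m = (f z (Sum.inl k.2) ^ 2) ^ m := by
    intro z k
    have h2 := h z k
    rw [eval₂_cov] at h2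
    rw [← pow_mul, ← pow_mul]
    linear_combination h2
  have hF : ∀ i j, (∃ z, f z (Sum.inl j) ≠ 0) →
      ∃ c : ℂ, ∀ z, eval₂ σ (f z ∘ Sum.inl) (q i) = c * f z (Sum.inl j) ^ 2 := by
    rintro i j ⟨z, hz⟩
    exact fermat (hQd i) ((hf (Sum.inr (i, j))).pow 2) ((hf (Sum.inl j)).pow 2) hm
      ⟨z, pow_ne_zero _ hz⟩ fun z => heq z (i, j)
  obtain ⟨j0, hj0⟩ : ∃ j, f z1 (Sum.inl j) ≠ 0 := by
    by_contra h0
    push Not at h0
    exact hx z1 (funext h0)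
  obtain ⟨c0, hc0⟩ := hF i1 j0 ⟨z1, hj0⟩
  have hA : ∀ j, ∃ a : ℂ, ∀ z, f z (Sum.inl j) = a * f z (Sum.inl j0) := by
    intro j
    by_cases hj : ∃ z, f z (Sum.inl j) ≠ 0
    · obtain ⟨c, hc⟩ := hF i1 j hj
      have hc1 : c ≠ 0 := by
        rintro rfl
        exact h1 (by rw [hc z1, zero_mul])
      refine prop_of_pow (hf _) (hf _) (r := 2) (by norm_num) ⟨z1, hj0⟩ (c := c⁻¹ * c0) fun z => ?_
      have h3 : c * f z (Sum.inl j) ^ 2 = c0 * f z (Sum.inl j0) ^ 2 := by rw [← hc z, hc0 z]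
      rw [mul_assoc, ← h3, ← mul_assoc, inv_mul_cancel₀ hc1, one_mul]
    · push Not at hj
      exact ⟨0, fun z => by rw [hj z, zero_mul]⟩
  choose a ha using hA
  have hB : ∀ k : ι' × Fin (N + 1), ∃ b : ℂ, ∀ z, f z (Sum.inr k) = b * f z (Sum.inl j0) := by
    intro k
    obtain ⟨c, hc⟩ := hF k.1 j0 ⟨z1, hj0⟩
    refine prop_of_pow (hf _) (hf _) (r := 2 * m) (by omega) ⟨z1, hj0⟩
      (c := a k.2 ^ (2 * m) - c ^ m) fun z => ?_
    have h3 := heq z k
    rw [hc z, ha k.2 z, ← pow_mul, ← pow_mul, mul_pow, mul_pow, ← pow_mul] at h3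
    linear_combination h3
  choose b hb using hB
  have hne : ∀ z, f z (Sum.inl j0) ≠ 0 := by
    intro z h0
    apply hf0 z
    funext j
    rcases j with j | k
    · rw [ha j z, h0, mul_zero]
      rfl
    · rw [hb k z, h0, mul_zero]
      rfl
  refine ⟨f z (Sum.inl j0) / f w (Sum.inl j0), funext fun j => ?_⟩
  rw [Pi.smul_apply, smul_eq_mul]
  have hw := hne w
  rcases j with j | k
  · rw [ha j z, ha j w]
    field_simp
  · rw [hb k z, hb k w]
    field_simp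

/-- the nonconstant entire curves in `X_σ` lie in copies of `V_σ` -/
theorem curve_in (hm : 4 ≤ m) (D : Data F d μ q) (σ : K →+* ℂ)
    {f : ℂ → Fin (N + 1) ⊕ (ι' × Fin (N + 1)) → ℂ} (hf : ∀ j, Differentiable ℂ fun z => f z j)
    (hf0 : ∀ z, f z ≠ 0) (h : ∀ z k, eval₂ σ (f z) (kummer m (TT q) Prod.snd k) = 0)
    (hcon : ¬ ∀ z w, ∃ c : ℂ, f z = c • f w) :
    ∃ (g : ℂ → Fin (n + 1) → ℂ) (ζ : ι' × Fin (N + 1) → ℂ), (∀ j, Differentiable ℂ fun z => g z j) ∧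
      (∀ z, g z ≠ 0) ∧ (∀ z i, eval₂ σ (g z) (F i) = 0) ∧ (∀ k, ζ k ^ (2 * m) = 1) ∧
      (∀ z j, f z (Sum.inl j) = ver μ (g z) j) ∧
      ∀ z k, f z (Sum.inr k) = ζ k * ver μ (g z) k.2 := by
  letI := σ.toAlgebra
  have hx : ∀ z, f z ∘ Sum.inl ≠ 0 := fun z => inl_ne_zero₂ (by omega) D.hom σ (hf0 z) (h z)
  have hzero : ∀ z i, eval₂ σ (f z ∘ Sum.inl) (q i) = 0 := by
    intro z i
    by_contra h1
    exact hcon fun z' w => const_of_ne hm D.hom σ hf hf0 h h1 z' w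
  have hpt : ∀ z, ∃ x : Fin (n + 1) → ℂ, x ≠ 0 ∧ (fun j => f z (Sum.inl j)) = ver μ x ∧
      ∀ i, eval₂ σ x (F i) = 0 := by
    intro z
    obtain ⟨x, a, b, hxa, hyb, hyc, hxF⟩ := D.point ℂ (f z ∘ Sum.inl) (hx z) (fun i => hzero z i)
    obtain ⟨r, hr⟩ := IsAlgClosed.exists_pow_nat_eq ((f z ∘ Sum.inl) b) (n := d) D.pos
    have hr0 : r ≠ 0 := by
      rintro rfl
      rw [zero_pow (by have := D.pos; omega)] at hr
      exact hyb hr.symm
    refine ⟨r • x, smul_ne_zero hr0 ?_, ?_, fun i => ?_⟩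
    · intro h0
      rw [h0] at hxa
      exact zero_ne_one hxa
    · rw [ver_smul D.mon, hr]
      funext c
      exact hyc c
    · obtain ⟨e, he⟩ := D.homF i
      rw [eval₂_scale σ he]
      have h2 : eval₂ σ x (F i) = 0 := hxF i
      rw [h2, mul_zero]
  obtain ⟨g, hg, hgf⟩ := t_lift n N d μ D.mon D.pos ℂ (fun z => (fun j => f z (Sum.inl j)))
    (differentiable_pi.2 fun j => hf (Sum.inl j)) (fun z => by
      obtain ⟨x, hx0, hx1, -⟩ := hpt z
      exact ⟨x, hx0, hx1⟩)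
  have hg0 : ∀ z, g z ≠ 0 := by
    intro z h0
    apply hx z
    have h1 := hgf z
    rw [h0, Pool.Agent.N254.SQ.lift_ver_zero D.mon D.pos] at h1
    exact h1
  have hgF : ∀ z i, eval₂ σ (g z) (F i) = 0 := by
    intro z i
    obtain ⟨x, hx0, hx1, hxF⟩ := hpt z
    obtain ⟨c, hc⟩ := ver_prop D.mon D.pos (hg0 z) (x := x) (c := 1) (by
      rw [one_smul, ← hgf z, ← hx1])
    obtain ⟨e, he⟩ := D.homF i
    rw [hc, eval₂_scale σ he, hxF i, mul_zero]
  have hζ : ∀ k : ι' × Fin (N + 1), ∃ ζ : ℂ, ζ ^ (2 * m) = 1 ∧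
      ∀ z, f z (Sum.inr k) = ζ * f z (Sum.inl k.2) := by
    intro k
    have heq : ∀ z, f z (Sum.inr k) ^ (2 * m) = f z (Sum.inl k.2) ^ (2 * m) := by
      intro z
      have h2 := h z k
      rw [eval₂_cov, hzero z k.1, zero_pow (by omega : m ≠ 0), add_zero] at h2
      exact sub_eq_zero.1 h2
    by_cases hk : ∃ z, f z (Sum.inl k.2) ≠ 0
    · obtain ⟨c, hc⟩ := prop_of_pow (hf (Sum.inr k)) (hf (Sum.inl k.2)) (r := 2 * m) (by omega) hk
        (c := 1) (fun z => by rw [one_mul]; exact heq z)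
      obtain ⟨z, hz⟩ := hk
      refine ⟨c, ?_, hc⟩
      have h3 := heq z
      rw [hc z, mul_pow] at h3
      exact mul_right_cancel₀ (pow_ne_zero _ hz) (by rw [h3, one_mul])
    · push Not at hk
      refine ⟨1, one_pow _, fun z => ?_⟩
      have h3 := heq z
      rw [hk z, zero_pow (by omega)] at h3
      rw [hk z, mul_zero]
      exact (pow_eq_zero_iff (by omega)).1 h3
  choose ζ hζ1 hζ2 using hζ
  refine ⟨g, ζ, fun j => (differentiable_pi.1 hg) j, hg0, hgF, hζ1, fun z j => congrFun (hgf z) j,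
    fun z k => ?_⟩
  rw [hζ2 k z]
  have h4 : f z (Sum.inl k.2) = ver μ (g z) k.2 := congrFun (hgf z) k.2
  rw [h4]

theorem hyp_up (hm : 4 ≤ m) (D : Data F d μ q) (σ : K →+* ℂ) (hV : Hyperbolic σ F) :
    Hyperbolic σ (kummer m (TT q) Prod.snd) := by
  intro f hf hf0 h
  by_contra hcon
  obtain ⟨g, ζ, hg, hg0, hgF, -, h1, h2⟩ := curve_in hm D σ hf hf0 h hcon
  apply hcon
  intro z w
  obtain ⟨c, hc⟩ := hV g hg hg0 hgF z w
  refine ⟨c ^ d, funext fun j => ?_⟩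
  rw [Pi.smul_apply, smul_eq_mul]
  have h3 : ver μ (g z) = c ^ d • ver μ (g w) := by rw [hc, ver_smul D.mon]
  rcases j with j | k
  · rw [h1, h1, h3]
    rfl
  · rw [h2, h2, h3, Pi.smul_apply, smul_eq_mul]
    ring

theorem hyp_down (hm : 1 ≤ m) (D : Data F d μ q) (σ : K →+* ℂ)
    (hX : Hyperbolic σ (kummer m (TT q) Prod.snd)) : Hyperbolic σ F := by
  letI := σ.toAlgebra
  intro g hg hg0 hgF z w
  have hd : Differentiable ℂ fun z => ver μ (g z) := ver_diff (differentiable_pi.2 hg)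
  obtain ⟨c, hc⟩ := hX (fun z => emb μ ι' (g z)) (fun j => by
    rcases j with j | k
    · exact (differentiable_pi.1 hd) j
    · exact (differentiable_pi.1 hd) k.2) (fun z => emb_ne D (hg0 z))
    (fun z k => emb_zero hm D (L := ℂ) (x := g z) (fun i => hgF z i) k) z w
  exact emb_prop D (hg0 z) hc

end

end Pool.Agent.N111.KC
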