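import Pool.Agent.N254.SQ.Num
import Pool.Agent.N254.SQ.Ver
import Pool.Agent.N111.KC.Crv

/-!
The data attached to a projective variety, the Fermat curve as a Kummer covering of the line, and
change of the index set of the coordinates.
-/

set_option autoImplicit false

namespace Pool.Agent.N111.KC

open MvPolynomial
open scoped LinearAlgebra.Projectivization
open Pool.Agent.N254.SQ (Mon ver t_num t_ver)

theorem exists_data {K : Type} [Field K] [CharZero K] {n : ℕ} (hn : 1 ≤ n) {ι : Type} [Finite ι]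
    (F : ι → MvPolynomial (Fin (n + 1)) K) (hF : ∀ i, ∃ e, (F i).IsHomogeneous e) :
    ∃ (N d : ℕ) (μ : Fin (N + 1) → Fin (n + 1) → ℕ) (ι' : Type) (_ : Fintype ι')
      (q : ι' → MvPolynomial (Fin (N + 1)) K), Data F d μ q := by
  classical
  have hF' := hF
  choose e he using hF
  have := Fintype.ofFinite ι
  obtain ⟨N, μ, hm, -⟩ := t_num n (max 3 (Finset.univ.sup e)) hn (le_max_left _ _)
  have hd : 1 ≤ max 3 (Finset.univ.sup e) := le_trans (by norm_num) (le_max_left _ _)
  obtain ⟨ι', hι', q, hq, hz, hp⟩ := t_ver K n N (max 3 (Finset.univ.sup e)) μ hm hd ι F e he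
    (fun k => le_trans (Finset.le_sup (f := e) (Finset.mem_univ k)) (le_max_right _ _))
  refine ⟨N, max 3 (Finset.univ.sup e), μ, ι', hι', q, ⟨hm, hd, hF', hq, hz, ?_⟩⟩
  intro Ω _ _ y hy hyq
  exact (hp Ω y hy hyq).2

/-- almost all points of `X(L)` lie on copies of `V(L)` -/
theorem fin_outside {K : Type} [Field K] {ι ι' : Type} [Finite ι'] {n N d m : ℕ}
    {μ : Fin (N + 1) → Fin (n + 1) → ℕ} {F : ι → MvPolynomial (Fin (n + 1)) K}
    {q : ι' → MvPolynomial (Fin (N + 1)) K} (hm : 1 ≤ m) (D : Data F d μ q) {L : Type} [Field L]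
    [Algebra K L] (hE : (fermatPts m L).Finite) :
    {P : ℙ L (Fin (N + 1) ⊕ (ι' × Fin (N + 1)) → L) | P ∈ points (kummer m (TT q) Prod.snd) L ∧
      ¬ ∃ (x : Fin (n + 1) → L) (ζ : ι' × Fin (N + 1) → L) (c : L),
        (∀ i, aeval x (F i) = 0) ∧ (∀ k, ζ k ^ (2 * m) = 1) ∧
          P.rep = c • Sum.elim (veronese μ x) (fun k => ζ k * veronese μ x k.2)}.Finite := by
  classical
  refine (fin_off hm D.hom hE).subset ?_
  rintro P ⟨hP, hout⟩
  refine ⟨hP, ?_⟩
  by_contra hoff
  push Not at hoff
  apply hout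
  have hx := inl_ne_zero hm D.hom P.rep_nonzero hP
  obtain ⟨x, a, b, hxa, hyb, hyc, hxF⟩ := D.point L (P.rep ∘ Sum.inl) hx hoff
  have hζ : ∀ k : ι' × Fin (N + 1), ∃ ζ : L, ζ ^ (2 * m) = 1 ∧
      P.rep (Sum.inr k) = ζ * P.rep (Sum.inl k.2) := by
    intro k
    have h1 := hP k
    rw [aeval_cov, hoff k.1, zero_pow (by omega : m ≠ 0), add_zero] at h1
    have h2 := sub_eq_zero.1 h1
    by_cases hk : P.rep (Sum.inl k.2) = 0
    · rw [hk, zero_pow (by omega)] at h2
      exact ⟨1, one_pow _, by rw [hk, mul_zero]; exact (pow_eq_zero_iff (by omega)).1 h2⟩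
    · refine ⟨P.rep (Sum.inr k) / P.rep (Sum.inl k.2), ?_, by field_simp⟩
      rw [div_pow, h2, div_self (pow_ne_zero _ hk)]
  choose ζ hζ1 hζ2 using hζ
  refine ⟨x, ζ, P.rep (Sum.inl b), hxF, hζ1, funext fun j => ?_⟩
  have h3 : ∀ c, P.rep (Sum.inl c) = P.rep (Sum.inl b) * veronese μ x c := hyc
  rw [Pi.smul_apply, smul_eq_mul]
  rcases j with j | k
  · exact h3 j
  · rw [hζ2 k, h3 k.2]
    change _ = P.rep (Sum.inl b) * (ζ k * veronese μ x k.2)
    ring

/-! ### the Fermat curve -/

section fermat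

variable {K : Type} [Field K] {m : ℕ}

/-- the Fermat curve as a Kummer covering of the line -/
noncomputable def FT (K : Type) [Field K] : Unit → MvPolynomial (Fin (1 + 1)) K :=
  fun _ => X 0 * X 1

theorem FT_hom (k : Unit) : (FT K k).IsHomogeneous 2 :=
  (isHomogeneous_X K _).mul (isHomogeneous_X K _)

theorem fermat_hyp (hm : 4 ≤ m) (σ : K →+* ℂ) :
    Hyperbolic σ (kummer m (FT K) fun _ => 0) := by
  intro f hf hf0 h
  have heq : ∀ z, (f z (Sum.inl 0) * f z (Sum.inl 1)) ^ m + (f z (Sum.inr ()) ^ 2) ^ m =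
      (f z (Sum.inl 0) ^ 2) ^ m := by
    intro z
    have h1 := h z ()
    rw [eval₂_kummer] at h1
    unfold FT at h1
    rw [eval₂_mul, eval₂_X, eval₂_X] at h1
    simp only [Function.comp] at h1
    rw [← pow_mul, ← pow_mul]
    linear_combination h1
  by_cases hx : ∃ z, f z (Sum.inl 0) ≠ 0
  · obtain ⟨c, hc⟩ := fermat ((hf (Sum.inl 0)).mul (hf (Sum.inl 1))) ((hf (Sum.inr ())).pow 2)
      ((hf (Sum.inl 0)).pow 2) hm (by
        obtain ⟨z, hz⟩ := hx
        exact ⟨z, pow_ne_zero _ hz⟩) heq
    have h1 : ∀ z, f z (Sum.inl 1) = c * f z (Sum.inl 0) := by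
      intro z
      have h2 := mul_zero_entire (P := fun z => f z (Sum.inl 0))
        (Q := fun z => f z (Sum.inl 1) - c * f z (Sum.inl 0)) (hf _) hx
        ((hf _).sub ((hf _).const_mul c)) (fun z => by
          have h3 : f z (Sum.inl 0) * f z (Sum.inl 1) = c * f z (Sum.inl 0) ^ 2 := hc z
          linear_combination h3) z
      exact sub_eq_zero.1 h2
    obtain ⟨b, hb⟩ := prop_of_pow (hf (Sum.inr ())) (hf (Sum.inl 0)) (r := 2 * m) (by omega) hx
      (c := 1 - c ^ m) (fun z => by
        have h3 := heq z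
        rw [h1 z, ← pow_mul, ← pow_mul, mul_left_comm, ← sq, mul_pow, ← pow_mul] at h3
        linear_combination h3)
    have hne : ∀ z, f z (Sum.inl 0) ≠ 0 := by
      intro z h0
      apply hf0 z
      funext j
      rcases j with j | k
      · fin_cases j
        · exact h0
        · change f z (Sum.inl 1) = 0
          rw [h1, h0, mul_zero]
      · change f z (Sum.inr ()) = 0
        rw [hb, h0, mul_zero]
    intro z w
    refine ⟨f z (Sum.inl 0) / f w (Sum.inl 0), funext fun j => ?_⟩
    rw [Pi.smul_apply, smul_eq_mul]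
    have hw := hne w
    rcases j with j | k
    · fin_cases j
      · change f z (Sum.inl 0) = _ * f w (Sum.inl 0)
        field_simp
      · change f z (Sum.inl 1) = _ * f w (Sum.inl 1)
        rw [h1 z, h1 w]
        field_simp
    · change f z (Sum.inr ()) = _ * f w (Sum.inr ())
      rw [hb z, hb w]
      field_simp
  · push Not at hx
    have hy : ∀ z, f z (Sum.inr ()) = 0 := by
      intro z
      have h3 := heq z
      rw [hx z, zero_mul, zero_pow (by omega : m ≠ 0), zero_add, ← pow_mul, ← pow_mul,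
        zero_pow (by omega : 2 * m ≠ 0)] at h3
      exact (pow_eq_zero_iff (by omega)).1 h3
    have hne : ∀ z, f z (Sum.inl 1) ≠ 0 := by
      intro z h0
      apply hf0 z
      funext j
      rcases j with j | k
      · fin_cases j
        · exact hx z
        · exact h0
      · exact hy z
    intro z w
    refine ⟨f z (Sum.inl 1) / f w (Sum.inl 1), funext fun j => ?_⟩
    rw [Pi.smul_apply, smul_eq_mul]
    have hw := hne w
    rcases j with j | k
    · fin_cases j
      · change f z (Sum.inl 0) = _ * f w (Sum.inl 0)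
        rw [hx z, hx w, mul_zero]
      · change f z (Sum.inl 1) = _ * f w (Sum.inl 1)
        field_simp
    · change f z (Sum.inr ()) = _ * f w (Sum.inr ())
      rw [hy z, hy w, mul_zero]

theorem fermat_fin {L : Type} [Field L] [Algebra K L]
    (h : (points (kummer m (FT K) fun _ => 0) L).Finite) : (fermatPts m L).Finite := by
  classical
  let v : L × L → Fin (1 + 1) ⊕ Unit → L := fun p => Sum.elim ![1, p.1] fun _ => p.2
  have hv : ∀ p, v p ≠ 0 := by
    intro p h0
    have h1 := congrFun h0 (Sum.inl 0)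
    exact one_ne_zero h1
  have hinj : Function.Injective fun p => Projectivization.mk L (v p) (hv p) := by
    intro p p' hp
    obtain ⟨a, ha⟩ := (Projectivization.mk_eq_mk_iff L _ _ _ _).1 hp
    have h0 : (a : L) * 1 = 1 := congrFun ha (Sum.inl 0)
    have h1 : (a : L) * p'.1 = p.1 := congrFun ha (Sum.inl 1)
    have h2 : (a : L) * p'.2 = p.2 := congrFun ha (Sum.inr ())
    rw [mul_one] at h0
    rw [h0, one_mul] at h1 h2
    exact Prod.ext h1.symm h2.symm
  refine Set.Finite.of_finite_image (f := fun p => Projectivization.mk L (v p) (hv p))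
    (h.subset ?_) hinj.injOn
  rintro _ ⟨p, hp, rfl⟩
  have hp' : p.1 ^ m + p.2 ^ (2 * m) = 1 := hp
  refine (mem_points (fun k => ⟨2 * m, kummer_hom FT_hom _ k⟩) (hv p)).2 fun k => ?_
  rw [aeval_kummer]
  unfold FT
  rw [map_mul, aeval_X, aeval_X]
  change p.2 ^ (2 * m) + (1 * p.1) ^ m - 1 ^ (2 * m) = 0
  rw [one_mul, one_pow]
  linear_combination hp'

end fermat

/-! ### change of coordinates -/

section transport

variable {K : Type} [Field K] {τ τ' ι : Type}

theorem points_rename (e : τ ≃ τ') {F : ι → MvPolynomial τ K}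
    (hF : ∀ i, ∃ d, (F i).IsHomogeneous d) {L : Type} [Field L] [Algebra K L]
    (h : (points (fun i => rename e (F i)) L).Finite) : (points F L).Finite := by
  classical
  have hv : ∀ P : ℙ L (τ → L), P.rep ∘ e.symm ≠ 0 := by
    intro P h0
    apply P.rep_nonzero
    funext j
    have h1 := congrFun h0 (e j)
    simpa using h1
  have hinj : Function.Injective fun P : ℙ L (τ → L) =>
      Projectivization.mk L (P.rep ∘ e.symm) (hv P) := by
    intro P P' hP
    obtain ⟨a, ha⟩ := (Projectivization.mk_eq_mk_iff L _ _ _ _).1 hP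
    rw [← P.mk_rep, ← P'.mk_rep, Projectivization.mk_eq_mk_iff]
    refine ⟨a, funext fun j => ?_⟩
    have h1 := congrFun ha (e j)
    simpa using h1
  refine Set.Finite.of_finite_image (f := fun P : ℙ L (τ → L) =>
      Projectivization.mk L (P.rep ∘ e.symm) (hv P)) (h.subset ?_) hinj.injOn
  rintro _ ⟨P, hP, rfl⟩
  refine (mem_points (fun i => ?_) (hv P)).2 fun i => ?_
  · obtain ⟨d, hd⟩ := hF i
    exact ⟨d, hd.rename_isHomogeneous⟩
  · rw [aeval_rename]
    have h1 : (P.rep ∘ e.symm) ∘ e = P.rep := by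
      funext j
      simp
    rw [h1]
    exact hP i

theorem hyperbolic_rename (e : τ ≃ τ') {F : ι → MvPolynomial τ K} (σ : K →+* ℂ)
    (h : Hyperbolic σ (fun i => rename e (F i))) : Hyperbolic σ F := by
  intro f hf hf0 hF z w
  have h1 : ∀ z, (f z ∘ e.symm) ∘ e = f z := by
    intro z
    funext j
    simp
  obtain ⟨c, hc⟩ := h (fun z => f z ∘ e.symm) (fun j => hf (e.symm j)) (fun z h0 => hf0 z (by
    rw [← h1 z, h0]
    rfl)) (fun z i => by rw [eval₂_rename, h1]; exact hF z i) z w
  refine ⟨c, funext fun j => ?_⟩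
  have h2 := congrFun hc (e j)
  simpa using h2

theorem rename_rename (e : τ ≃ τ') (F : ι → MvPolynomial τ K) :
    (fun i => rename e.symm (rename e (F i))) = F := by
  funext i
  rw [MvPolynomial.rename_rename]
  simp

theorem points_rename_iff (e : τ ≃ τ') {F : ι → MvPolynomial τ K}
    (hF : ∀ i, ∃ d, (F i).IsHomogeneous d) {L : Type} [Field L] [Algebra K L] :
    (points (fun i => rename e (F i)) L).Finite ↔ (points F L).Finite := by
  refine ⟨points_rename e hF, fun h => ?_⟩
  refine points_rename e.symm (F := fun i => rename e (F i)) (fun i => ?_) ?_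
  · obtain ⟨d, hd⟩ := hF i
    exact ⟨d, hd.rename_isHomogeneous⟩
  · rw [rename_rename]
    exact h

theorem hyperbolic_rename_iff (e : τ ≃ τ') {F : ι → MvPolynomial τ K} (σ : K →+* ℂ) :
    Hyperbolic σ (fun i => rename e (F i)) ↔ Hyperbolic σ F := by
  refine ⟨hyperbolic_rename e σ, fun h => ?_⟩
  refine hyperbolic_rename e.symm (F := fun i => rename e (F i)) σ ?_
  rw [rename_rename]
  exact h

theorem points_zero {ι : Type} (F : ι → MvPolynomial (Fin (0 + 1)) K) (L : Type) [Field L]
    [Algebra K L] : (points F L).Finite := by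
  apply Set.Finite.subset (s := {Projectivization.mk L (fun _ : Fin (0 + 1) => (1 : L))
    (fun h2 => one_ne_zero (congrFun h2 0))}) (Set.finite_singleton _)
  intro P _
  rw [Set.mem_singleton_iff, ← P.mk_rep, Projectivization.mk_eq_mk_iff]
  have h1 : P.rep 0 ≠ 0 := by
    intro h2
    apply P.rep_nonzero
    funext j
    rw [show j = 0 from Fin.ext (by omega)]
    exact h2
  refine ⟨Units.mk0 (P.rep 0) h1, funext fun j => ?_⟩
  rw [show j = 0 from Fin.ext (by omega)]
  change P.rep 0 * 1 = P.rep 0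
  rw [mul_one]

theorem hyperbolic_zero {ι : Type} (F : ι → MvPolynomial (Fin (0 + 1)) K) (σ : K →+* ℂ) :
    Hyperbolic σ F := by
  intro f _ hf0 _ z w
  have h1 : ∀ z, f z 0 ≠ 0 := by
    intro z h2
    apply hf0 z
    funext j
    rw [show j = 0 from Fin.ext (by omega)]
    exact h2
  refine ⟨f z 0 / f w 0, funext fun j => ?_⟩
  rw [show j = 0 from Fin.ext (by omega), Pi.smul_apply, smul_eq_mul, div_mul_cancel₀ _ (h1 w)]

end transport

end Pool.Agent.N111.KC
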