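import Pool.Agent.N254.SQ.Fin
import Pool.Agent.N111.KC.Fin

/-!
Smooth hypersurfaces attached to projective varieties (helper254's theorem `geo`).
-/

set_option autoImplicit false

namespace Pool.Agent.N111.KC

open MvPolynomial
open scoped LinearAlgebra.Projectivization
open Pool.Agent.N254.SQ (Mon ver geo leaves ver_prop ver_smul ver_ne_zero ver_diff powerSum lin)

/-- The hypersurface `A = 0` is smooth: over no extension of `K` the partial derivatives have a
common zero in the projective space. -/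
def Smooth {K : Type} [Field K] {N : ℕ} (A : MvPolynomial (Fin (N + 1)) K) : Prop :=
  ∀ (Ω : Type) [Field Ω] (τ : K →+* Ω) (y : Fin (N + 1) → Ω), y ≠ 0 →
    ∃ j, eval₂ τ y (pderiv j A) ≠ 0

theorem smooth_reduction {K : Type} [Field K] [CharZero K] (σ : K →+* ℂ) {n : ℕ} (hn : 1 ≤ n)
    {ι : Type} [Finite ι] (F : ι → MvPolynomial (Fin (n + 1)) K)
    (hF : ∀ i, ∃ e, (F i).IsHomogeneous e) :
    ∃ (N : ℕ) (A : MvPolynomial (Fin (N + 1)) K), 3 ≤ N ∧ (∃ e, A.IsHomogeneous e) ∧ Smooth A ∧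
      (Hyperbolic σ F → Hyperbolic σ (fun _ : Unit => A)) ∧
      ∀ (L : Type) [Field L] [Algebra K L], (points (fun _ : Unit => A) L).Finite →
        (points F L).Finite := by
  classical
  have := Fintype.ofFinite ι
  choose e he using hF
  obtain ⟨D₁, H⟩ := geo leaves
  obtain ⟨N, m, hm, hN, H2⟩ := H n (max 3 (Finset.univ.sup e)) hn (le_max_left _ _)
  obtain ⟨Q, hQ, hsm, hv, hc⟩ := H2 (D₁ N) le_rfl K ι F e he
    (fun k => le_trans (Finset.le_sup (f := e) (Finset.mem_univ k)) (le_max_right _ _))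
  have hd1 : 1 ≤ max 3 (Finset.univ.sup e) := le_trans (by norm_num) (le_max_left _ _)
  have hA : (powerSum (D₁ N) Q).IsHomogeneous (2 + D₁ N) := by
    refine IsHomogeneous.sum _ _ _ fun t _ => ?_
    have h1 := (hQ t).mul ((Pool.Agent.N254.SQ.lin_hom K N (t : ℕ)).pow (D₁ N))
    rw [one_mul] at h1
    exact h1
  refine ⟨N, powerSum (D₁ N) Q, by omega, ⟨_, hA⟩, ?_, ?_, ?_⟩
  · intro Ω _ τ y hy
    obtain ⟨j, hj⟩ := hsm Ω τ y hy
    refine ⟨j, ?_⟩
    rw [pderiv_map, eval_map] at hj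
    exact hj
  · intro h f hf hf0 hfA
    by_contra hcon
    have hconst : ¬ ∀ z w, ∃ c : ℂ, f w = c • f z := fun h2 => hcon fun z w => h2 w z
    obtain ⟨G, hG, hG0, hGF, hfG⟩ := Pool.Agent.N254.SQ.maps leaves.lift hm hd1
      (fun i => map σ (F i)) e (fun i => (he i).map σ) (map σ (powerSum (D₁ N) Q)) (by
        intro g hg hg0 hgA hgn z
        obtain ⟨x, hx, hxF, hgx⟩ := hc σ g hg hg0 hgA hgn z
        exact ⟨x, hx, hxF, hgx⟩) f (differentiable_pi.2 hf) hf0 (fun z => by
        rw [eval_map]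
        exact hfA z ()) hconst
    apply hcon
    intro z w
    obtain ⟨c, hc⟩ := h G (fun j => (differentiable_pi.1 hG) j) hG0 (fun z i => by
      rw [← eval_map]
      exact hGF z i) z w
    exact ⟨c ^ max 3 (Finset.univ.sup e), by rw [hfG, hfG, hc, ver_smul hm]⟩
  · intro L _ _ hfin
    have hinj : Function.Injective fun P : ℙ L (Fin (n + 1) → L) =>
        Projectivization.mk L (ver m P.rep) (ver_ne_zero hm hd1 P.rep_nonzero) := by
      intro P P' hP
      obtain ⟨a, ha⟩ := (Projectivization.mk_eq_mk_iff L _ _ _ _).1 hP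
      obtain ⟨c, hc⟩ := ver_prop (c := (a : L)) hm hd1 P.rep_nonzero ha.symm
      have hc0 : c ≠ 0 := by
        intro h0
        rw [h0, zero_smul] at hc
        exact P.rep_nonzero hc
      rw [← P.mk_rep, ← P'.mk_rep, Projectivization.mk_eq_mk_iff]
      exact ⟨Units.mk0 c hc0, hc.symm⟩
    refine Set.Finite.of_finite_image (f := fun P : ℙ L (Fin (n + 1) → L) =>
      Projectivization.mk L (ver m P.rep) (ver_ne_zero hm hd1 P.rep_nonzero))
      (hfin.subset ?_) hinj.injOn
    rintro _ ⟨P, hP, rfl⟩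
    refine (mem_points (fun _ => ⟨_, hA⟩) (ver_ne_zero hm hd1 P.rep_nonzero)).2 fun _ => ?_
    have h1 := hv L (algebraMap K L) P.rep (fun k => by
      rw [eval_map]
      exact hP k)
    rw [eval_map] at h1
    exact h1

end Pool.Agent.N111.KC
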